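import Pool.Agent.Y993.HP.Stm

/-!
# HP-ISO: uniform high-dimensional permutations and relabelling (project HP of helper993)
-/

set_option autoImplicit false

namespace Pool.Agent.Y390.HP.ISO

open Finset Pool.Agent.Y993.HP

lemma le_lg {d n N : ℕ} {u : Lab d n N} {X C : Finset (Pt d n)} (h : C ⊆ X) (hc : IsCh u C) :
    C.card ≤ lg u X := by
  classical
  unfold lg
  exact Finset.le_sup (f := Finset.card) (by simp [h, hc])

lemma lg_le {d n N : ℕ} {u : Lab d n N} {X : Finset (Pt d n)} {m : ℕ}
    (h : ∀ C, C ⊆ X → IsCh u C → C.card ≤ m) : lg u X ≤ m := by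
  classical
  unfold lg
  apply Finset.sup_le
  intro C hC
  simp only [Finset.mem_filter, Finset.mem_powerset] at hC
  exact h C hC.1 hC.2

/-- relabelling of the points -/
def sm {d n : ℕ} (s : Fin d → Equiv.Perm (Fin n)) : Pt d n ≃ Pt d n := Equiv.piCongrRight s

lemma sm_apply {d n : ℕ} (s : Fin d → Equiv.Perm (Fin n)) (p : Pt d n) (i : Fin d) :
    sm s p i = s i (p i) := rfl

lemma sm_symm_apply {d n : ℕ} (s : Fin d → Equiv.Perm (Fin n)) (p : Pt d n) (i : Fin d) :
    (sm s).symm p i = (s i).symm (p i) := rfl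

lemma mem_LL {d n : ℕ} {A : Finset (Pt d n)} : A ∈ LL d n ↔ IsPerm A := by
  unfold LL; simp

lemma isPerm_map {d n : ℕ} (s : Fin d → Equiv.Perm (Fin n)) {A : Finset (Pt d n)}
    (h : IsPerm A) : IsPerm (A.map (sm s).toEmbedding) := by
  intro i α
  obtain ⟨y, hy, hu⟩ := h i ((sm s).symm α)
  have key : ∀ x, (sm s).symm (Function.update α i x) =
      Function.update ((sm s).symm α) i ((s i).symm x) := by
    intro x
    funext j
    by_cases hj : j = i
    · subst hj; simp [sm_symm_apply]
    · simp [sm_symm_apply, hj]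
  refine ⟨s i y, ?_, ?_⟩
  · simp only [Finset.mem_map_equiv, key]
    simpa using hy
  · intro x hx
    simp only [Finset.mem_map_equiv, key] at hx
    have := hu _ hx
    rw [← this]; simp

lemma map_map_symm {d n : ℕ} (s : Fin d → Equiv.Perm (Fin n)) (A : Finset (Pt d n)) :
    (A.map (sm s).toEmbedding).map (sm (fun i => (s i).symm)).toEmbedding = A := by
  ext p
  simp only [Finset.mem_map_equiv]
  have : (sm s).symm ((sm (fun i => (s i).symm)).symm p) = p := by
    funext i; simp [sm_symm_apply]
  rw [this]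

lemma map_symm_map {d n : ℕ} (s : Fin d → Equiv.Perm (Fin n)) (A : Finset (Pt d n)) :
    (A.map (sm (fun i => (s i).symm)).toEmbedding).map (sm s).toEmbedding = A := by
  ext p
  simp only [Finset.mem_map_equiv]
  have : (sm (fun i => (s i).symm)).symm ((sm s).symm p) = p := by
    funext i; simp [sm_symm_apply]
  rw [this]

lemma lg_map_le {d n N : ℕ} (w : Lab d n N) (s : Fin d → Equiv.Perm (Fin n))
    (A : Finset (Pt d n)) :
    lg (fun x => w (x.1, s x.1 x.2)) A ≤ lg w (A.map (sm s).toEmbedding) := by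
  apply lg_le
  intro C hC hch
  rw [← Finset.card_map (sm s).toEmbedding]
  apply le_lg
  · exact Finset.map_subset_map.2 hC
  · intro p hp q hq hpq
    simp only [Finset.mem_map] at hp hq
    obtain ⟨p', hp', rfl⟩ := hp
    obtain ⟨q', hq', rfl⟩ := hq
    have := hch p' hp' q' hq' (by rintro rfl; exact hpq rfl)
    simpa [sm_apply] using this

lemma lg_map {d n N : ℕ} (w : Lab d n N) (s : Fin d → Equiv.Perm (Fin n))
    (A : Finset (Pt d n)) :
    lg w (A.map (sm s).toEmbedding) = lg (fun x => w (x.1, s x.1 x.2)) A := by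
  apply le_antisymm _ (lg_map_le w s A)
  have h := lg_map_le (fun x => w (x.1, s x.1 x.2)) (fun i => (s i).symm)
    (A.map (sm s).toEmbedding)
  rw [map_map_symm] at h
  simpa using h

/-- averaging over all relabellings -/
lemma count {d n : ℕ} (E : ℕ → Prop) [DecidablePred E] (q : ℝ) (t : Fin d → Equiv.Perm (Fin n))
    (h : ∀ A ∈ LL d n, Pr (fun s : Fin d → Equiv.Perm (Fin n) =>
      E (lg (fun x : Fin d × Fin n => s x.1 x.2) A)) ≤ q) :
    (((LL d n).filter (fun A => E (lg (fun x : Fin d × Fin n => t x.1 x.2) A))).card : ℝ) ≤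
      q * ((LL d n).card : ℝ) := by
  classical
  have hS : 0 < (Fintype.card (Fin d → Equiv.Perm (Fin n)) : ℝ) := by
    exact_mod_cast Fintype.card_pos
  have key : ∀ s : Fin d → Equiv.Perm (Fin n),
      ((LL d n).filter (fun A => E (lg (fun x : Fin d × Fin n => t x.1 (s x.1 x.2)) A))).card =
      ((LL d n).filter (fun A => E (lg (fun x : Fin d × Fin n => t x.1 x.2) A))).card := by
    intro s
    apply Finset.card_nbij' (fun A => A.map (sm s).toEmbedding)
      (fun A => A.map (sm (fun i => (s i).symm)).toEmbedding)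
    · intro A hA
      simp only [Finset.coe_filter, Set.mem_ofPred_eq, mem_LL] at hA ⊢
      refine ⟨isPerm_map s hA.1, ?_⟩
      rw [lg_map (fun x : Fin d × Fin n => t x.1 x.2) s A]
      exact hA.2
    · intro A hA
      simp only [Finset.coe_filter, Set.mem_ofPred_eq, mem_LL] at hA ⊢
      refine ⟨isPerm_map _ hA.1, ?_⟩
      rw [lg_map (fun x : Fin d × Fin n => t x.1 (s x.1 x.2)) (fun i => (s i).symm) A]
      simpa using hA.2
    · intro A _
      exact map_map_symm s A
    · intro A _
      exact map_symm_map s A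
  have h1 : (Fintype.card (Fin d → Equiv.Perm (Fin n)) : ℝ) *
      (((LL d n).filter (fun A => E (lg (fun x : Fin d × Fin n => t x.1 x.2) A))).card : ℝ) =
      ∑ s : Fin d → Equiv.Perm (Fin n), ∑ A ∈ LL d n,
        (if E (lg (fun x : Fin d × Fin n => t x.1 (s x.1 x.2)) A) then (1 : ℝ) else 0) := by
    have : ∀ s : Fin d → Equiv.Perm (Fin n), ∑ A ∈ LL d n,
        (if E (lg (fun x : Fin d × Fin n => t x.1 (s x.1 x.2)) A) then (1 : ℝ) else 0) =
        (((LL d n).filter (fun A => E (lg (fun x : Fin d × Fin n => t x.1 x.2) A))).card : ℝ) := by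
      intro s
      rw [Finset.sum_boole, key s]
    simp_rw [this]
    simp
  have h3 : ∀ A ∈ LL d n, ∑ s : Fin d → Equiv.Perm (Fin n),
      (if E (lg (fun x : Fin d × Fin n => t x.1 (s x.1 x.2)) A) then (1 : ℝ) else 0) ≤
      (Fintype.card (Fin d → Equiv.Perm (Fin n)) : ℝ) * q := by
    intro A hA
    have e1 : ∑ s : Fin d → Equiv.Perm (Fin n),
        (if E (lg (fun x : Fin d × Fin n => t x.1 (s x.1 x.2)) A) then (1 : ℝ) else 0) =
        ∑ s : Fin d → Equiv.Perm (Fin n),
        (if E (lg (fun x : Fin d × Fin n => s x.1 x.2) A) then (1 : ℝ) else 0) :=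
      Equiv.sum_comp (Equiv.mulLeft t) (fun s : Fin d → Equiv.Perm (Fin n) =>
        (if E (lg (fun x : Fin d × Fin n => s x.1 x.2) A) then (1 : ℝ) else 0))
    rw [e1]
    have := h A hA
    unfold Pr Ex at this
    rw [div_le_iff₀ hS] at this
    rw [mul_comm]
    refine le_trans (le_of_eq ?_) this
    apply Finset.sum_congr rfl
    intro s _
    congr
  have h4 : (Fintype.card (Fin d → Equiv.Perm (Fin n)) : ℝ) *
      (((LL d n).filter (fun A => E (lg (fun x : Fin d × Fin n => t x.1 x.2) A))).card : ℝ) ≤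
      (Fintype.card (Fin d → Equiv.Perm (Fin n)) : ℝ) * (q * ((LL d n).card : ℝ)) := by
    rw [h1, Finset.sum_comm]
    refine le_trans (Finset.sum_le_sum h3) ?_
    rw [Finset.sum_const, nsmul_eq_mul]
    nlinarith
  exact le_of_mul_le_mul_left h4 hS

lemma strict_inj {m n : ℕ} {g : Fin m → Fin n} (h : StrictMono g ∨ StrictAnti g) :
    Function.Injective g := by
  rcases h with h | h
  · exact h.injective
  · exact h.injective

lemma HH_bdd {d n : ℕ} (hd : 1 ≤ d) (A : Finset (Pt d n)) :
    BddAbove {m : ℕ | ∃ f : Fin m → Pt d n, (∀ a, f a ∈ A) ∧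
      ∀ j, StrictMono (fun a => f a j) ∨ StrictAnti (fun a => f a j)} := by
  refine ⟨n, ?_⟩
  rintro m ⟨f, -, hf⟩
  have := Fintype.card_le_of_injective _ (strict_inj (hf ⟨0, hd⟩))
  simpa using this

lemma lg_le_HH {d n : ℕ} (hd : 1 ≤ d) (A : Finset (Pt d n)) :
    lg (fun x : Fin d × Fin n => x.2) A ≤ HH A := by
  classical
  apply lg_le
  intro C hC hch
  unfold HH
  apply le_csSup (HH_bdd hd A)
  set i0 : Fin d := ⟨0, hd⟩ with hi0
  have hinj : Set.InjOn (fun p : Pt d n => p i0) (C : Set (Pt d n)) := by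
    intro p hp q hq hpq
    by_contra hne
    rcases hch p hp q hq hne with h | h
    · exact absurd hpq (ne_of_lt (h i0))
    · exact absurd hpq (ne_of_gt (h i0))
  have hcard : (C.image (fun p : Pt d n => p i0)).card = C.card := Finset.card_image_of_injOn hinj
  have hex : ∀ a : Fin C.card, ∃ p ∈ C, p i0 =
      (C.image (fun p : Pt d n => p i0)).orderEmbOfFin hcard a := by
    intro a
    obtain ⟨p, hp, h⟩ := Finset.mem_image.1
      ((C.image (fun p : Pt d n => p i0)).orderEmbOfFin_mem hcard a)
    exact ⟨p, hp, h⟩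
  choose f hfC hf using hex
  refine ⟨f, fun a => hC (hfC a), fun j => Or.inl ?_⟩
  intro a b hab
  have h0 : f a i0 < f b i0 := by
    rw [hf, hf]; exact (OrderEmbedding.strictMono _) hab
  have hne : f a ≠ f b := by
    intro h; rw [h] at h0; exact lt_irrefl _ h0
  rcases hch _ (hfC a) _ (hfC b) hne with h | h
  · exact h j
  · exact absurd (h i0) (not_lt_of_gt h0)

open Classical in
/-- pattern of increasing coordinates -/
noncomputable def rv {d n : ℕ} (P : Finset (Fin d)) : Fin d → Equiv.Perm (Fin n) :=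
  fun i => if i ∈ P then Equiv.refl _ else Fin.revPerm

lemma HH_le_pattern {d n : ℕ} (hd : 1 ≤ d) (A : Finset (Pt d n)) :
    ∃ P : Finset (Fin d), HH A ≤ lg (fun x : Fin d × Fin n => rv P x.1 x.2) A := by
  classical
  have hne : {m : ℕ | ∃ f : Fin m → Pt d n, (∀ a, f a ∈ A) ∧
      ∀ j, StrictMono (fun a => f a j) ∨ StrictAnti (fun a => f a j)}.Nonempty :=
    ⟨0, Fin.elim0, fun a => Fin.elim0 a, fun j => Or.inl (fun a => Fin.elim0 a)⟩
  obtain ⟨f, hfA, hf⟩ := Nat.sSup_mem hne (HH_bdd hd A)
  refine ⟨Finset.univ.filter (fun j => StrictMono (fun a => f a j)), ?_⟩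
  have hinj : Function.Injective f := by
    intro a b hab
    apply strict_inj (hf ⟨0, hd⟩)
    simp [hab]
  have hc : (Finset.univ.image f).card = HH A := by
    rw [Finset.card_image_of_injective _ hinj, Finset.card_univ, Fintype.card_fin]
    rfl
  rw [← hc]
  apply le_lg
  · intro p hp
    simp only [Finset.mem_image, Finset.mem_univ, true_and] at hp
    obtain ⟨a, rfl⟩ := hp
    exact hfA a
  · have main : ∀ a b, a < b → ∀ i, rv (Finset.univ.filter
        (fun j => StrictMono (fun a => f a j))) i (f a i) <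
        rv (Finset.univ.filter (fun j => StrictMono (fun a => f a j))) i (f b i) := by
      intro a b hab i
      by_cases hi : StrictMono (fun a => f a i)
      · simp only [rv, Finset.mem_filter, Finset.mem_univ, true_and, hi, if_true]
        exact hi hab
      · have hi' := (hf i).resolve_left hi
        simp only [rv, Finset.mem_filter, Finset.mem_univ, true_and, hi, if_false]
        exact Fin.rev_lt_rev.2 (hi' hab)
    intro p hp q hq hpq
    simp only [Finset.mem_image, Finset.mem_univ, true_and] at hp hq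
    obtain ⟨a, rfl⟩ := hp
    obtain ⟨b, rfl⟩ := hq
    rcases lt_trichotomy a b with h | h | h
    · exact Or.inl (main a b h)
    · subst h; exact absurd rfl hpq
    · exact Or.inr (main b a h)

theorem iso : S_ISO := by
  classical
  intro d n lo hi q hd hn h
  have c1 := count (d := d) (n := n) (fun m => m < lo) q (fun _ => Equiv.refl _)
    (fun A hA => (h A hA).1)
  have c2 := fun P : Finset (Fin d) => count (d := d) (n := n) (fun m => hi ≤ m) q (rv P)
    (fun A hA => (h A hA).2)
  have hsub : (LL d n).filter (fun A => HH A < lo ∨ hi ≤ HH A) ⊆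
      ((LL d n).filter (fun A => lg (fun x : Fin d × Fin n => (Equiv.refl (Fin n)) x.2) A < lo)) ∪
      (Finset.univ : Finset (Finset (Fin d))).biUnion (fun P =>
        (LL d n).filter (fun A => hi ≤ lg (fun x : Fin d × Fin n => rv P x.1 x.2) A)) := by
    intro A hA
    rw [Finset.mem_filter] at hA
    rw [Finset.mem_union]
    rcases hA.2 with h1 | h1
    · left
      rw [Finset.mem_filter]
      exact ⟨hA.1, lt_of_le_of_lt (lg_le_HH hd A) h1⟩
    · right
      rw [Finset.mem_biUnion]
      obtain ⟨P, hP⟩ := HH_le_pattern hd A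
      exact ⟨P, Finset.mem_univ _, by rw [Finset.mem_filter]; exact ⟨hA.1, le_trans h1 hP⟩⟩
  have hcard := le_trans (Finset.card_le_card hsub) (Finset.card_union_le _ _)
  have hb : ((Finset.univ : Finset (Finset (Fin d))).biUnion (fun P =>
        (LL d n).filter (fun A => hi ≤ lg (fun x : Fin d × Fin n => rv P x.1 x.2) A))).card ≤
      ∑ P : Finset (Fin d), ((LL d n).filter
        (fun A => hi ≤ lg (fun x : Fin d × Fin n => rv P x.1 x.2) A)).card :=
    Finset.card_biUnion_le
  have hb' : (((Finset.univ : Finset (Finset (Fin d))).biUnion (fun P =>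
        (LL d n).filter (fun A => hi ≤ lg (fun x : Fin d × Fin n => rv P x.1 x.2) A))).card : ℝ) ≤
      (2 : ℝ) ^ d * (q * ((LL d n).card : ℝ)) := by
    calc _ ≤ ((∑ P : Finset (Fin d), ((LL d n).filter
        (fun A => hi ≤ lg (fun x : Fin d × Fin n => rv P x.1 x.2) A)).card : ℕ) : ℝ) := by
          exact_mod_cast hb
      _ = ∑ P : Finset (Fin d), (((LL d n).filter
        (fun A => hi ≤ lg (fun x : Fin d × Fin n => rv P x.1 x.2) A)).card : ℝ) := by
          push_cast; rfl
      _ ≤ ∑ P : Finset (Fin d), (q * ((LL d n).card : ℝ)) := by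
          apply Finset.sum_le_sum
          intro P _
          exact c2 P
      _ = (2 : ℝ) ^ d * (q * ((LL d n).card : ℝ)) := by
          rw [Finset.sum_const, nsmul_eq_mul]
          simp
  have hcard' : (((LL d n).filter (fun A => HH A < lo ∨ hi ≤ HH A)).card : ℝ) ≤
      (((LL d n).filter
        (fun A => lg (fun x : Fin d × Fin n => (Equiv.refl (Fin n)) x.2) A < lo)).card : ℝ) +
      (((Finset.univ : Finset (Finset (Fin d))).biUnion (fun P =>
        (LL d n).filter (fun A => hi ≤ lg (fun x : Fin d × Fin n => rv P x.1 x.2) A))).card : ℝ) := by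
    exact_mod_cast hcard
  have c1' : (((LL d n).filter
        (fun A => lg (fun x : Fin d × Fin n => (Equiv.refl (Fin n)) x.2) A < lo)).card : ℝ) ≤
      q * ((LL d n).card : ℝ) := c1
  have e : ((2 : ℝ) ^ d + 1) * q * ((LL d n).card : ℝ) =
      q * ((LL d n).card : ℝ) + (2 : ℝ) ^ d * (q * ((LL d n).card : ℝ)) := by ring
  rw [e]
  exact le_trans hcard' (add_le_add c1' hb')

end Pool.Agent.Y390.HP.ISO
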